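import Pool.Agent.Helper34.EC.Defs
import Mathlib.RingTheory.Smooth.IntegralClosure
import Mathlib.RingTheory.Etale.Field

/-!
# Project EC, module A2: normality is preserved by algebraic extensions of scalars
-/

set_option autoImplicit false

namespace Pool.Agent.Helper82.EC

open TensorProduct Pool.Agent.Helper34.EC

/-- Common denominators in `S ⊗ Frac A`. -/
theorem exists_den {A S : Type} [CommRing A] [IsDomain A] [CommRing S] [Algebra A S]
    (z : S ⊗[A] FractionRing A) : ∃ a : A, a ≠ 0 ∧ ∃ s : S, a • z = s ⊗ₜ[A] (1 : FractionRing A) := by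
  induction z with
  | zero => exact ⟨1, one_ne_zero, 0, by simp⟩
  | tmul s k =>
    obtain ⟨p, q, hq⟩ := IsFractionRing.div_surjective (A := A) k
    refine ⟨q, nonZeroDivisors.ne_zero hq.1, p • s, ?_⟩
    rw [TensorProduct.smul_tmul', TensorProduct.smul_tmul, TensorProduct.smul_tmul, ← hq.2,
      Algebra.smul_def, Algebra.smul_def, mul_one]
    congr 1
    rw [mul_div_cancel₀]
    intro h
    exact nonZeroDivisors.ne_zero hq.1
      ((map_eq_zero_iff _ (IsFractionRing.injective A (FractionRing A))).1 h)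
  | add x y hx hy =>
    obtain ⟨a, ha, s, hs⟩ := hx
    obtain ⟨b, hb, t, ht⟩ := hy
    refine ⟨a * b, mul_ne_zero ha hb, b • s + a • t, ?_⟩
    rw [smul_add, TensorProduct.add_tmul, ← TensorProduct.smul_tmul', ← TensorProduct.smul_tmul',
      ← hs, ← ht, smul_smul, smul_smul, mul_comm b a]

/-- The finite level. -/
theorem finite_level {F A E Q : Type} [Field F] [CommRing A] [IsDomain A] [Algebra F A]
    [IsIntegrallyClosed A] [Field E] [Algebra F E] [FiniteDimensional F E]
    [Algebra.IsSeparable F E] [Field Q] [Algebra A Q] (Ψ : A ⊗[F] E →ₐ[A] Q)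
    (hΨ : Function.Injective Ψ) (y : Q) (hy : IsIntegral A y) (a : A) (ha : a ≠ 0)
    (s : A ⊗[F] E) (hs : Ψ s = algebraMap A Q a * y) : ∃ s', Ψ s' = y := by
  have h1 : Algebra.FormallyEtale F E := Algebra.FormallyEtale.of_isSeparable F E
  have h2 : Algebra.FinitePresentation F E :=
    (Algebra.FinitePresentation.of_finiteType).1 inferInstance
  have h3 : Algebra.Smooth F E := ⟨inferInstance, inferInstance⟩
  have h4 : Algebra.Smooth A (A ⊗[F] E) := inferInstance
  have hinj : Function.Injective (algebraMap A Q) := by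
    intro u v huv
    have h5 : Ψ (algebraMap A _ u) = Ψ (algebraMap A _ v) := by
      rw [AlgHom.commutes, AlgHom.commutes, huv]
    have h6 : (u ⊗ₜ[F] (1 : E)) = v ⊗ₜ[F] (1 : E) := hΨ h5
    exact Algebra.TensorProduct.includeLeft_injective (S := A)
      (algebraMap F E).injective h6
  have hunit : ∀ u : nonZeroDivisors A, IsUnit (algebraMap A Q u) := fun u =>
    (map_ne_zero_iff _ hinj).2 (nonZeroDivisors.ne_zero u.2) |>.isUnit
  let κ : FractionRing A →ₐ[A] Q :=
    IsLocalization.liftAlgHom (M := nonZeroDivisors A) (f := Algebra.ofId A Q) hunit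
  let Φ : (A ⊗[F] E) ⊗[A] FractionRing A →ₐ[A] Q := Algebra.TensorProduct.productMap Ψ κ
  have hΦt : ∀ s k, Φ (s ⊗ₜ k) = Ψ s * κ k := fun s k => Algebra.TensorProduct.productMap_apply_tmul ..
  have hK : Function.Injective (algebraMap A (FractionRing A)) := IsFractionRing.injective _ _
  have hΦ : Function.Injective Φ := by
    rw [injective_iff_map_eq_zero]
    intro z hz
    obtain ⟨b, hb, t, ht⟩ := exists_den z
    have h5 : Ψ t = 0 := by
      have h6 : Φ (b • z) = 0 := by rw [map_smul, hz, smul_zero]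
      rw [ht, hΦt, map_one, mul_one] at h6
      exact h6
    have h6 : t = 0 := hΨ (by rw [h5, map_zero])
    rw [h6, TensorProduct.zero_tmul] at ht
    have hb' : (algebraMap A (FractionRing A) b) ≠ 0 := (map_ne_zero_iff _ hK).2 hb
    have h7 : z = ((1 : A ⊗[F] E) ⊗ₜ[A] (algebraMap A (FractionRing A) b)⁻¹) * (b • z) := by
      rw [mul_smul_comm, ← smul_mul_assoc, TensorProduct.smul_tmul', TensorProduct.smul_tmul,
        Algebra.smul_def, mul_inv_cancel₀ hb', ← Algebra.TensorProduct.one_def, one_mul]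
    rw [h7, ht, mul_zero]
  have ha' : (algebraMap A (FractionRing A) a) ≠ 0 := (map_ne_zero_iff _ hK).2 ha
  have haQ : algebraMap A Q a ≠ 0 := (map_ne_zero_iff _ hinj).2 ha
  set z : (A ⊗[F] E) ⊗[A] FractionRing A := s ⊗ₜ (algebraMap A (FractionRing A) a)⁻¹ with hzd
  have hz : Φ z = y := by
    rw [hzd, hΦt, hs, map_inv₀, κ.commutes]
    field_simp
  have hzi : IsIntegral A z := by
    rw [← isIntegral_algHom_iff Φ hΦ, hz]
    exact hy
  obtain ⟨w, hw⟩ := (TensorProduct.toIntegralClosure_bijective_of_smooth (R := A)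
    (S := A ⊗[F] E) (B := FractionRing A)).2 ⟨z, hzi.tower_top⟩
  have hall : ∀ w : (A ⊗[F] E) ⊗[A] integralClosure A (FractionRing A), ∃ s' : A ⊗[F] E,
      (TensorProduct.toIntegralClosure A (A ⊗[F] E) (FractionRing A) w :
        (A ⊗[F] E) ⊗[A] FractionRing A) = s' ⊗ₜ 1 := by
    intro w
    induction w with
    | zero => exact ⟨0, by simp⟩
    | tmul x k =>
      obtain ⟨k, hk⟩ := k
      obtain ⟨a', rfl⟩ := (IsIntegrallyClosed.isIntegral_iff (R := A)).1 hk
      refine ⟨a' • x, ?_⟩
      change x ⊗ₜ[A] (algebraMap A (FractionRing A) a') = _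
      rw [TensorProduct.smul_tmul, Algebra.smul_def, mul_one]
    | add x y hx hy =>
      obtain ⟨s1, h1⟩ := hx
      obtain ⟨s2, h2⟩ := hy
      refine ⟨s1 + s2, ?_⟩
      rw [map_add, TensorProduct.add_tmul, ← h1, ← h2]
      rfl
  obtain ⟨s', hs'⟩ := hall w
  rw [hw] at hs'
  refine ⟨s', ?_⟩
  have h8 : Φ z = Ψ s' := by
    change z = _ at hs'
    rw [hs', hΦt, map_one, mul_one]
  rw [← h8, hz]

/-- Every element of `Ω ⊗ A` is defined over a finite extension. -/
theorem exists_finite {F A Ω : Type} [Field F] [CommRing A] [Algebra F A] [Field Ω] [Algebra F Ω]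
    [Algebra.IsAlgebraic F Ω] (s : Ω ⊗[F] A) : ∃ E : IntermediateField F Ω,
      FiniteDimensional F E ∧ s ∈ (Algebra.TensorProduct.map E.val (AlgHom.id F A)).range := by
  induction s with
  | zero => exact ⟨⊥, inferInstance, zero_mem _⟩
  | tmul ω a =>
    refine ⟨IntermediateField.adjoin F {ω}, IntermediateField.adjoin.finiteDimensional
      (Algebra.IsIntegral.isIntegral ω), ⟨⟨ω, IntermediateField.mem_adjoin_simple_self F ω⟩ ⊗ₜ a, ?_⟩⟩
    simp
  | add x y hx hy =>
    obtain ⟨E1, f1, ⟨t1, h1⟩⟩ := hx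
    obtain ⟨E2, f2, ⟨t2, h2⟩⟩ := hy
    refine ⟨E1 ⊔ E2, IntermediateField.finiteDimensional_sup E1 E2, ?_⟩
    have key : ∀ (E : IntermediateField F Ω) (hE : E ≤ E1 ⊔ E2) (t : E ⊗[F] A),
        Algebra.TensorProduct.map E.val (AlgHom.id F A) t ∈
          (Algebra.TensorProduct.map (E1 ⊔ E2).val (AlgHom.id F A)).range := by
      intro E hE t
      refine ⟨Algebra.TensorProduct.map (IntermediateField.inclusion hE) (AlgHom.id F A) t, ?_⟩
      induction t with
      | zero => simp
      | tmul e a => simp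
      | add x y hx hy => simp only [map_add] at *; rw [hx, hy]
    refine add_mem ?_ ?_
    · rw [← h1]; exact key E1 le_sup_left t1
    · rw [← h2]; exact key E2 le_sup_right t2

/-- EC-A2 -/
theorem normal_bc {F A Ω : Type} [Field F] [CharZero F] [CommRing A] [IsDomain A] [Algebra F A]
    [IsIntegrallyClosed A] [Field Ω] [IsAlgClosed Ω] [Algebra F Ω] [Algebra.IsAlgebraic F Ω]
    [IsDomain (Ω ⊗[F] A)] : IsIntegrallyClosed (Ω ⊗[F] A) := by
  let S := Ω ⊗[F] A
  let Q := FractionRing S
  let ρ : A →ₐ[F] S := Algebra.TensorProduct.includeRight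
  have hρ : Function.Injective ρ := Algebra.TensorProduct.includeRight_injective
    (algebraMap F Ω).injective
  let : Algebra A S := ρ.toRingHom.toAlgebra
  have tow : IsScalarTower A S Q := inferInstance
  have tow2 : IsScalarTower F A S := IsScalarTower.of_algebraMap_eq' ρ.comp_algebraMap.symm
  have hint : ∀ s : S, IsIntegral A s := by
    intro s
    induction s using TensorProduct.induction_on with
    | zero => exact isIntegral_zero
    | tmul ω a =>
      have h1 : (ω ⊗ₜ[F] a : S) = (ω ⊗ₜ[F] (1 : A)) * ((1 : Ω) ⊗ₜ[F] a) := by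
        rw [Algebra.TensorProduct.tmul_mul_tmul, one_mul, mul_one]
      rw [h1]
      refine IsIntegral.mul ?_ ?_
      · have h2 : IsIntegral F (ω ⊗ₜ[F] (1 : A) : S) :=
          (Algebra.IsIntegral.isIntegral (R := F) ω).map
            (Algebra.TensorProduct.includeLeft : Ω →ₐ[F] S)
        exact h2.tower_top
      · exact isIntegral_algebraMap (R := A) (x := a)
    | add x y hx hy => exact hx.add hy
  have hAI : Algebra.IsIntegral A S := ⟨hint⟩
  refine (isIntegrallyClosed_iff Q).2 ?_
  intro y hy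
  have hyA : IsIntegral A y := isIntegral_trans (R := A) (A := S) y hy
  obtain ⟨s, t, ht, hst⟩ := IsFractionRing.div_surjective (A := S) y
  have ht0 : t ≠ 0 := nonZeroDivisors.ne_zero ht
  have hcomap := Ideal.comap_ne_bot_of_integral_mem (R := A) ht0
    (Ideal.mem_span_singleton_self t) (hint t)
  obtain ⟨a, ha, ha0⟩ := Submodule.exists_mem_ne_zero_of_ne_bot hcomap
  rw [Ideal.mem_comap, Ideal.mem_span_singleton'] at ha
  obtain ⟨t', ht'⟩ := ha
  have hSQ : Function.Injective (algebraMap S Q) := IsFractionRing.injective S Q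
  have htQ : algebraMap S Q t ≠ 0 := (map_ne_zero_iff _ hSQ).2 ht0
  have hsy : algebraMap S Q (s * t') = algebraMap A Q a * y := by
    have h1 : algebraMap A S a = t' * t := ht'.symm
    rw [IsScalarTower.algebraMap_apply A S Q, h1, ← hst, map_mul, map_mul, mul_assoc,
      mul_div_cancel₀ _ htQ, mul_comm]
  obtain ⟨E, hE, s0, hs0⟩ := exists_finite (s * t')
  have hmi : Function.Injective (Algebra.TensorProduct.map E.val (AlgHom.id F A)) :=
    Module.Flat.rTensor_preserves_injective_linearMap (M := A) E.val.toLinearMap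
      E.val.injective
  let Ψ : A ⊗[F] E →ₐ[A] Q :=
    { toRingHom := (algebraMap S Q).comp
        (((Algebra.TensorProduct.map E.val (AlgHom.id F A)).comp
          (Algebra.TensorProduct.comm F A E).toAlgHom).toRingHom)
      commutes' := fun a => by
        change algebraMap S Q (Algebra.TensorProduct.map E.val (AlgHom.id F A)
          (Algebra.TensorProduct.comm F A E (a ⊗ₜ[F] (1 : E)))) = algebraMap A Q a
        rw [IsScalarTower.algebraMap_apply A S Q]
        rw [Algebra.TensorProduct.comm_tmul, Algebra.TensorProduct.map_tmul, map_one]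
        rfl }
  have hΨa : ∀ x, Ψ x = algebraMap S Q (Algebra.TensorProduct.map E.val (AlgHom.id F A)
      (Algebra.TensorProduct.comm F A E x)) := fun x => rfl
  have hΨ : Function.Injective Ψ := by
    intro u v huv
    rw [hΨa, hΨa] at huv
    exact (Algebra.TensorProduct.comm F A E).injective (hmi (hSQ huv))
  obtain ⟨s', hs'⟩ := finite_level Ψ hΨ y hyA a ha0 ((Algebra.TensorProduct.comm F A E).symm s0) (by
    rw [hΨa, AlgEquiv.apply_symm_apply, ← hsy]
    exact congrArg _ hs0)
  rw [hΨa] at hs'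
  exact ⟨_, hs'⟩

end Pool.Agent.Helper82.EC
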